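import Mathlib

open Matrix

namespace Pool.Agent.Results.MP_21a573_al.SmallFields

/-- The group of `F`-points of the split semisimple group `SL_2`. -/
abbrev G (F : Type) [Field F] := SpecialLinearGroup (Fin 2) F

/-- For `v ≠ 0`: the `F`-points of the unipotent radical of the Borel subgroup stabilising the
line `F v`. -/
def U {F : Type} [Field F] (v : Fin 2 → F) : Set (G F) := {u | u.val.mulVec v = v}

/-- `φ` is cuspidal: its sum over `g U` vanishes for all `g` and all `U`. -/
def IsCuspidal {F : Type} [Field F] (φ : G F → ℂ) : Prop :=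
  ∀ (g : G F) (v : Fin 2 → F), v ≠ 0 → ∑ᶠ u ∈ U v, φ (g * u) = 0

/-- The `F`-points of the Zariski closure of the conjugacy class of `s ∈ SL_2(K)`. -/
def Obar (F : Type) {K : Type} [Field F] [Field K] [Algebra F K] (s : G K) : Set (G F) :=
  {g | ∀ P : MvPolynomial (Fin 2 × Fin 2) K,
    (∀ x : G K, IsConj s x → MvPolynomial.eval (fun i => x.val i.1 i.2) P = 0) →
      MvPolynomial.eval (fun i => algebraMap F K (g.val i.1 i.2)) P = 0}

/-- `S_w`: functions on `Obar` whose sums over all `g U` contained in `Obar` vanish. -/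
def Sw (F : Type) {K : Type} [Field F] [Field K] [Algebra F K] (s : G K) :
    Set (Obar F s → ℂ) :=
  {f | ∀ (g : G F) (v : Fin 2 → F), v ≠ 0 → (∀ u ∈ U v, g * u ∈ Obar F s) →
    ∑ᶠ x ∈ {x : Obar F s | g⁻¹ * x.1 ∈ U v}, f x = 0}

/-- `S_cusp`: restrictions to `Obar` of cuspidal functions. -/
def Scusp (F : Type) {K : Type} [Field F] [Field K] [Algebra F K] (s : G K) :
    Set (Obar F s → ℂ) :=
  {f | ∃ φ : G F → ℂ, IsCuspidal φ ∧ ∀ x, f x = φ x.1}

section aux

variable {F : Type} [Field F]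

/-- An element of `SL_2`. -/
def mk' (a b c d : F) (h : a * d - b * c = 1) : G F :=
  ⟨!![a, b; c, d], by rw [Matrix.det_fin_two_of, h]⟩

/-- The elements of `U v`. -/
def uu (v : Fin 2 → F) (t : F) : G F :=
  mk' (1 - t * v 0 * v 1) (t * v 0 * v 0) (-(t * v 1 * v 1)) (1 + t * v 0 * v 1) (by ring)

theorem uu_mem (v : Fin 2 → F) (t : F) : uu v t ∈ U v := by
  change (!![1 - t * v 0 * v 1, t * v 0 * v 0; -(t * v 1 * v 1), 1 + t * v 0 * v 1] :
    Matrix (Fin 2) (Fin 2) F).mulVec v = v
  ext i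
  fin_cases i
  · simp [Matrix.mulVec, dotProduct, Fin.sum_univ_two]
    ring
  · simp [Matrix.mulVec, dotProduct, Fin.sum_univ_two]
    ring

theorem uu_inj (v : Fin 2 → F) (hv : v ≠ 0) : Function.Injective (uu v) := by
  intro t t' h
  have h1 : (uu v t).val 0 1 = (uu v t').val 0 1 := by rw [h]
  have h2 : (uu v t).val 1 0 = (uu v t').val 1 0 := by rw [h]
  change t * v 0 * v 0 = t' * v 0 * v 0 at h1
  change -(t * v 1 * v 1) = -(t' * v 1 * v 1) at h2
  by_cases h0 : v 0 = 0
  · have h3 : v 1 ≠ 0 := by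
      intro h3
      apply hv
      ext i
      fin_cases i
      · exact h0
      · exact h3
    have h4 := neg_injective h2
    exact mul_right_cancel₀ h3 (mul_right_cancel₀ h3 h4)
  · exact mul_right_cancel₀ h0 (mul_right_cancel₀ h0 h1)

theorem range_uu (v : Fin 2 → F) (hv : v ≠ 0) : Set.range (uu v) = U v := by
  ext u
  constructor
  · rintro ⟨t, rfl⟩
    exact uu_mem v t
  · intro hu
    have hdet := u.2
    rw [Matrix.det_fin_two] at hdet
    have e0 : u.val 0 0 * v 0 + u.val 0 1 * v 1 = v 0 := by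
      have := congrFun hu 0
      simpa [Matrix.mulVec, dotProduct, Fin.sum_univ_two] using this
    have e1 : u.val 1 0 * v 0 + u.val 1 1 * v 1 = v 1 := by
      have := congrFun hu 1
      simpa [Matrix.mulVec, dotProduct, Fin.sum_univ_two] using this
    have key : ∀ t, u.val 0 0 = 1 - t * v 0 * v 1 → u.val 0 1 = t * v 0 * v 0 →
        u.val 1 0 = -(t * v 1 * v 1) → u.val 1 1 = 1 + t * v 0 * v 1 → u ∈ Set.range (uu v) := by
      intro t h1 h2 h3 h4
      refine ⟨t, ?_⟩
      apply Subtype.ext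
      ext i j
      fin_cases i <;> fin_cases j
      · exact h1.symm
      · exact h2.symm
      · exact h3.symm
      · exact h4.symm
    have hv' : v 0 = 0 → v 1 ≠ 0 := by
      intro h0 h1
      apply hv
      ext i
      fin_cases i
      · exact h0
      · exact h1
    generalize u.val 0 0 = a at *
    generalize u.val 0 1 = b at *
    generalize u.val 1 0 = c at *
    generalize u.val 1 1 = d at *
    generalize v 0 = x at *
    generalize v 1 = y at *
    by_cases hx : x = 0
    · have hy := hv' hx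
      subst hx
      have hb : b = 0 := by
        have : b * y = 0 := by linear_combination e0
        rcases mul_eq_zero.1 this with h | h
        · exact h
        · exact (hy h).elim
      have hd : d = 1 := by
        apply mul_right_cancel₀ hy
        linear_combination e1
      subst hb hd
      have ha : a = 1 := by linear_combination hdet
      refine key (-c / y ^ 2) ?_ ?_ ?_ ?_
      · rw [ha]
        ring
      · ring
      · field_simp
      · ring
    · have hd : d = 1 + b * y / x := by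
        have h1 : x * d = x + b * y := by
          linear_combination x * hdet - d * e0 + b * e1
        field_simp
        linear_combination h1
      have ha : a = 1 - b * y / x := by
        field_simp
        linear_combination e0
      have hc : c = -(b * y * y) / (x * x) := by
        have h1 : x * c = y * (1 - d) := by linear_combination e1
        rw [hd] at h1
        apply mul_left_cancel₀ hx
        rw [h1]
        field_simp
        ring
      refine key (b / x ^ 2) ?_ ?_ ?_ ?_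
      · rw [ha]
        field_simp
      · field_simp
      · rw [hc]
        field_simp
      · rw [hd]
        field_simp

theorem cosetSum_eq [Fintype F] (φ : G F → ℂ) (hφ : IsCuspidal φ) (g : G F) (v : Fin 2 → F)
    (hv : v ≠ 0) : ∑ t : F, φ (g * uu v t) = 0 := by
  have h := hφ g v hv
  rw [← range_uu v hv, finsum_mem_range (uu_inj v hv), finsum_eq_sum_of_fintype] at h
  exact h

/-- The companion matrix. -/
def comp {K : Type} [Field K] (t : K) : G K := mk' 0 (-1) 1 t (by ring)

theorem isConj_comp {K : Type} [Field K] [IsAlgClosed K] (t : K) (g : G K)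
    (ht : g.val 0 0 + g.val 1 1 = t) (hc : g.val 1 0 ≠ 0) : IsConj (comp t) g := by
  obtain ⟨r, hr⟩ := IsAlgClosed.exists_pow_nat_eq (g.val 1 0)⁻¹ (n := 2) (by norm_num)
  have hdet := g.2
  rw [Matrix.det_fin_two] at hdet
  rw [isConj_iff]
  refine ⟨mk' r (r * g.val 0 0) 0 (r * g.val 1 0) ?_, ?_⟩
  · have : r * (r * g.val 1 0) - r * g.val 0 0 * 0 = r ^ 2 * g.val 1 0 := by ring
    rw [this, hr, inv_mul_cancel₀ hc]
  · rw [mul_inv_eq_iff_eq_mul]
    apply Subtype.ext
    change (!![r, r * g.val 0 0; 0, r * g.val 1 0] : Matrix (Fin 2) (Fin 2) K) * !![0, -1; 1, t] =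
      g.val * !![r, r * g.val 0 0; 0, r * g.val 1 0]
    ext i j
    fin_cases i <;> fin_cases j
    · simp [Matrix.mul_apply, Fin.sum_univ_two]
      ring
    · simp [Matrix.mul_apply, Fin.sum_univ_two]
      linear_combination r * hdet - r * g.val 0 0 * ht
    · simp [Matrix.mul_apply, Fin.sum_univ_two]
      ring
    · simp [Matrix.mul_apply, Fin.sum_univ_two]
      linear_combination (- r * g.val 1 0) * ht

theorem trace_of_isConj {K : Type} [Field K] (s x : G K) (h : IsConj s x) :
    x.val 0 0 + x.val 1 1 = s.val 0 0 + s.val 1 1 := by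
  obtain ⟨c, rfl⟩ := isConj_iff.1 h
  have h1 : ((c * s * c⁻¹ : G K).val).trace = s.val.trace := by
    change (c.val * s.val * (c⁻¹ : G K).val).trace = s.val.trace
    have e : (c⁻¹ : G K).val * c.val = 1 := congrArg Subtype.val (inv_mul_cancel c)
    rw [Matrix.trace_mul_comm, ← Matrix.mul_assoc, e, Matrix.one_mul]
  rw [Matrix.trace_fin_two, Matrix.trace_fin_two] at h1
  exact h1

theorem mem_Obar {K : Type} [Field K] [IsAlgClosed K] [Algebra F K] (t : F)
    (hell : ∀ g : G F, g.val 0 0 + g.val 1 1 = t → g.val 1 0 ≠ 0) (g : G F) :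
    g ∈ Obar F (comp (algebraMap F K t)) ↔ g.val 0 0 + g.val 1 1 = t := by
  constructor
  · intro hg
    have h1 := hg (MvPolynomial.X (0, 0) + MvPolynomial.X (1, 1) -
      MvPolynomial.C (algebraMap F K t)) (fun x hx => by
        have h2 := trace_of_isConj _ _ hx
        have h3 : (comp (algebraMap F K t)).val 0 0 + (comp (algebraMap F K t)).val 1 1 =
            algebraMap F K t := by
          change (0 : K) + algebraMap F K t = _
          rw [zero_add]
        rw [h3] at h2
        rw [map_sub, map_add, MvPolynomial.eval_X, MvPolynomial.eval_X, MvPolynomial.eval_C, h2,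
          sub_self])
    rw [map_sub, map_add, MvPolynomial.eval_X, MvPolynomial.eval_X, MvPolynomial.eval_C,
      ← map_add, sub_eq_zero] at h1
    exact (algebraMap F K).injective h1
  · intro hg P hP
    set g' : G K := mk' (algebraMap F K (g.val 0 0)) (algebraMap F K (g.val 0 1))
      (algebraMap F K (g.val 1 0)) (algebraMap F K (g.val 1 1)) (by
        have hdet := g.2
        rw [Matrix.det_fin_two] at hdet
        rw [← map_mul, ← map_mul, ← map_sub, hdet, map_one]) with hg'
    have h1 : IsConj (comp (algebraMap F K t)) g' := by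
      apply isConj_comp
      · change algebraMap F K (g.val 0 0) + algebraMap F K (g.val 1 1) = _
        rw [← map_add, hg]
      · change algebraMap F K (g.val 1 0) ≠ 0
        intro h
        exact hell g hg ((map_eq_zero _).1 h)
    have h2 := hP g' h1
    have h3 : (fun i : Fin 2 × Fin 2 => g'.val i.1 i.2) =
        fun i => algebraMap F K (g.val i.1 i.2) := by
      funext i
      obtain ⟨i, j⟩ := i
      fin_cases i <;> fin_cases j <;> rfl
    rwa [h3] at h2

end aux

theorem not_contained {F : Type} [Field F] (t : F)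
    (hell : ∀ a b c d x y : F, a * d - b * c = 1 → a + d = t → (x ≠ 0 ∨ y ≠ 0) →
      -(a * x * y) - b * y * y + c * x * x + d * x * y ≠ 0)
    (g : G F) (v : Fin 2 → F) (hv : v ≠ 0)
    (h : ∀ u ∈ U v, (g * u).val 0 0 + (g * u).val 1 1 = t) : False := by
  have h0 := h 1 (by
    change (1 : Matrix (Fin 2) (Fin 2) F).mulVec v = v
    exact Matrix.one_mulVec v)
  rw [mul_one] at h0
  have h1 := h (uu v 1) (uu_mem v 1)
  have hdet := g.2
  rw [Matrix.det_fin_two] at hdet
  have hv' : v 0 ≠ 0 ∨ v 1 ≠ 0 := by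
    by_contra hcon
    push Not at hcon
    apply hv
    ext i
    fin_cases i
    · exact hcon.1
    · exact hcon.2
  refine hell _ _ _ _ _ _ hdet h0 hv' ?_
  have e : (g * uu v 1).val = g.val * !![1 - 1 * v 0 * v 1, 1 * v 0 * v 0;
    -(1 * v 1 * v 1), 1 + 1 * v 0 * v 1] := rfl
  rw [e] at h1
  simp [Matrix.mul_apply, Fin.sum_univ_two] at h1
  linear_combination h1 - h0

/-- The cuspidal function condition for `SL_2(F_2)`. -/
theorem case_two (φ : G (ZMod 2) → ℂ) (hφ : IsCuspidal φ) :
    φ (mk' 0 1 1 1 (by decide)) = φ (mk' 1 1 1 0 (by decide)) := by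
  have h1 := cosetSum_eq φ hφ (mk' 0 1 1 1 (by decide)) ![1, 0] (by decide)
  have h2 := cosetSum_eq φ hφ (mk' 1 1 1 0 (by decide)) ![0, 1] (by decide)
  have e : ∀ f : ZMod 2 → ℂ, ∑ t, f t = f 0 + f 1 := fun f => Fin.sum_univ_two f
  rw [e] at h1 h2
  rw [show mk' 0 1 1 1 (by decide) * uu ![1, 0] (0 : ZMod 2) = mk' 0 1 1 1 (by decide) by decide,
    show mk' 0 1 1 1 (by decide) * uu ![1, 0] (1 : ZMod 2) = mk' 0 1 1 0 (by decide) by decide] at h1
  rw [show mk' 1 1 1 0 (by decide) * uu ![0, 1] (0 : ZMod 2) = mk' 1 1 1 0 (by decide) by decide,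
    show mk' 1 1 1 0 (by decide) * uu ![0, 1] (1 : ZMod 2) = mk' 0 1 1 0 (by decide) by decide] at h2
  linear_combination h1 - h2

/-- A relation for cuspidal functions on `SL_2(F_3)`. -/
theorem case_three (φ : G (ZMod 3) → ℂ) (hφ : IsCuspidal φ) :
    φ (mk' 0 1 2 0 (by decide)) + φ (mk' 0 2 1 0 (by decide)) =
      φ (mk' 1 1 1 2 (by decide)) + φ (mk' 2 2 2 1 (by decide)) := by
  have e : ∀ f : ZMod 3 → ℂ, ∑ t, f t = f 0 + f 1 + f 2 := fun f => Fin.sum_univ_three f
  have h0 := cosetSum_eq φ hφ (mk' 0 1 2 0 (by decide)) ![1, 0] (by decide)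
  rw [e] at h0
  rw [show mk' 0 1 2 0 (by decide) * uu ![1, 0] (0 : ZMod 3) = mk' 0 1 2 0 (by decide) by decide] at h0
  rw [show mk' 0 1 2 0 (by decide) * uu ![1, 0] (1 : ZMod 3) = mk' 0 1 2 2 (by decide) by decide] at h0
  rw [show mk' 0 1 2 0 (by decide) * uu ![1, 0] (2 : ZMod 3) = mk' 0 1 2 1 (by decide) by decide] at h0
  have h1 := cosetSum_eq φ hφ (mk' 1 0 1 1 (by decide)) ![1, 0] (by decide)
  rw [e] at h1
  rw [show mk' 1 0 1 1 (by decide) * uu ![1, 0] (0 : ZMod 3) = mk' 1 0 1 1 (by decide) by decide] at h1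
  rw [show mk' 1 0 1 1 (by decide) * uu ![1, 0] (1 : ZMod 3) = mk' 1 1 1 2 (by decide) by decide] at h1
  rw [show mk' 1 0 1 1 (by decide) * uu ![1, 0] (2 : ZMod 3) = mk' 1 2 1 0 (by decide) by decide] at h1
  have h2 := cosetSum_eq φ hφ (mk' 0 2 1 0 (by decide)) ![0, 1] (by decide)
  rw [e] at h2
  rw [show mk' 0 2 1 0 (by decide) * uu ![0, 1] (0 : ZMod 3) = mk' 0 2 1 0 (by decide) by decide] at h2
  rw [show mk' 0 2 1 0 (by decide) * uu ![0, 1] (1 : ZMod 3) = mk' 1 2 1 0 (by decide) by decide] at h2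
  rw [show mk' 0 2 1 0 (by decide) * uu ![0, 1] (2 : ZMod 3) = mk' 2 2 1 0 (by decide) by decide] at h2
  have h3 := cosetSum_eq φ hφ (mk' 1 0 0 1 (by decide)) ![0, 1] (by decide)
  rw [e] at h3
  rw [show mk' 1 0 0 1 (by decide) * uu ![0, 1] (0 : ZMod 3) = mk' 1 0 0 1 (by decide) by decide] at h3
  rw [show mk' 1 0 0 1 (by decide) * uu ![0, 1] (1 : ZMod 3) = mk' 1 0 2 1 (by decide) by decide] at h3
  rw [show mk' 1 0 0 1 (by decide) * uu ![0, 1] (2 : ZMod 3) = mk' 1 0 1 1 (by decide) by decide] at h3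
  have h4 := cosetSum_eq φ hφ (mk' 0 1 2 1 (by decide)) ![1, 1] (by decide)
  rw [e] at h4
  rw [show mk' 0 1 2 1 (by decide) * uu ![1, 1] (0 : ZMod 3) = mk' 0 1 2 1 (by decide) by decide] at h4
  rw [show mk' 0 1 2 1 (by decide) * uu ![1, 1] (1 : ZMod 3) = mk' 2 2 2 1 (by decide) by decide] at h4
  rw [show mk' 0 1 2 1 (by decide) * uu ![1, 1] (2 : ZMod 3) = mk' 1 0 2 1 (by decide) by decide] at h4
  have h5 := cosetSum_eq φ hφ (mk' 0 1 2 2 (by decide)) ![1, 1] (by decide)
  rw [e] at h5
  rw [show mk' 0 1 2 2 (by decide) * uu ![1, 1] (0 : ZMod 3) = mk' 0 1 2 2 (by decide) by decide] at h5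
  rw [show mk' 0 1 2 2 (by decide) * uu ![1, 1] (1 : ZMod 3) = mk' 2 2 1 0 (by decide) by decide] at h5
  rw [show mk' 0 1 2 2 (by decide) * uu ![1, 1] (2 : ZMod 3) = mk' 1 0 0 1 (by decide) by decide] at h5
  linear_combination h0 - h1 + h2 + h3 - h4 - h5

/-- The strategy: a function which is the indicator of one point. -/
theorem indicator_mem_Sw {F : Type} [Field F] {K : Type} [Field K] [IsAlgClosed K] [Algebra F K]
    (t : F) (hO : ∀ g : G F, g ∈ Obar F (comp (algebraMap F K t)) ↔ g.val 0 0 + g.val 1 1 = t)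
    (hell : ∀ a b c d x y : F, a * d - b * c = 1 → a + d = t → (x ≠ 0 ∨ y ≠ 0) →
      -(a * x * y) - b * y * y + c * x * x + d * x * y ≠ 0)
    (f : Obar F (comp (algebraMap F K t)) → ℂ) : f ∈ Sw F (comp (algebraMap F K t)) := by
  intro g v hv h
  exact (not_contained t hell g v hv fun u hu => (hO _).1 (h u hu)).elim

theorem two_case : ∃ s : G (AlgebraicClosure (ZMod 2)), Scusp (ZMod 2) s ≠ Sw (ZMod 2) s := by
  have hell : ∀ a b c d x y : ZMod 2, a * d - b * c = 1 → a + d = 1 → (x ≠ 0 ∨ y ≠ 0) →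
      -(a * x * y) - b * y * y + c * x * x + d * x * y ≠ 0 := by decide
  have hell' : ∀ g : G (ZMod 2), g.val 0 0 + g.val 1 1 = 1 → g.val 1 0 ≠ 0 := by
    intro g hg h
    have hdet := g.2
    rw [Matrix.det_fin_two] at hdet
    exact hell _ _ _ _ 1 0 hdet hg (Or.inl one_ne_zero) (by rw [h]; ring)
  have hO := mem_Obar (K := AlgebraicClosure (ZMod 2)) (1 : ZMod 2) hell'
  refine ⟨comp (algebraMap _ _ (1 : ZMod 2)), fun hcon => ?_⟩
  have hf := indicator_mem_Sw (K := AlgebraicClosure (ZMod 2)) (1 : ZMod 2) hO hell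
    (fun x => if x.1 = mk' 0 1 1 1 (by decide) then 1 else 0)
  rw [← hcon] at hf
  obtain ⟨φ, hφ, hf⟩ := hf
  have h1 := hf ⟨mk' 0 1 1 1 (by decide), (hO _).2 (by decide)⟩
  have h2 := hf ⟨mk' 1 1 1 0 (by decide), (hO _).2 (by decide)⟩
  dsimp only at h1 h2
  rw [if_pos rfl] at h1
  rw [if_neg (by decide)] at h2
  have h3 := case_two φ hφ
  rw [← h1, ← h2] at h3
  exact one_ne_zero h3

theorem three_case : ∃ s : G (AlgebraicClosure (ZMod 3)), Scusp (ZMod 3) s ≠ Sw (ZMod 3) s := by
  have hell : ∀ a b c d x y : ZMod 3, a * d - b * c = 1 → a + d = 0 → (x ≠ 0 ∨ y ≠ 0) →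
      -(a * x * y) - b * y * y + c * x * x + d * x * y ≠ 0 := by decide
  have hell' : ∀ g : G (ZMod 3), g.val 0 0 + g.val 1 1 = 0 → g.val 1 0 ≠ 0 := by
    intro g hg h
    have hdet := g.2
    rw [Matrix.det_fin_two] at hdet
    exact hell _ _ _ _ 1 0 hdet hg (Or.inl one_ne_zero) (by rw [h]; ring)
  have hO := mem_Obar (K := AlgebraicClosure (ZMod 3)) (0 : ZMod 3) hell'
  refine ⟨comp (algebraMap _ _ (0 : ZMod 3)), fun hcon => ?_⟩
  have hf := indicator_mem_Sw (K := AlgebraicClosure (ZMod 3)) (0 : ZMod 3) hO hell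
    (fun x => if x.1 = mk' 0 1 2 0 (by decide) then 1 else 0)
  rw [← hcon] at hf
  obtain ⟨φ, hφ, hf⟩ := hf
  have h1 := hf ⟨mk' 0 1 2 0 (by decide), (hO _).2 (by decide)⟩
  have h2 := hf ⟨mk' 0 2 1 0 (by decide), (hO _).2 (by decide)⟩
  have h3 := hf ⟨mk' 1 1 1 2 (by decide), (hO _).2 (by decide)⟩
  have h4 := hf ⟨mk' 2 2 2 1 (by decide), (hO _).2 (by decide)⟩
  dsimp only at h1 h2 h3 h4
  rw [if_pos rfl] at h1
  rw [if_neg (by decide)] at h2 h3 h4
  have h5 := case_three φ hφ
  rw [← h1, ← h2, ← h3, ← h4] at h5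
  norm_num at h5

/-- Over the fields with `2` and `3` elements there is a conjugacy class in `SL_2` for which
`S_cusp` and `S_w` differ. -/
theorem result (p : ℕ) [Fact p.Prime] (hp : p = 2 ∨ p = 3) :
    ∃ s : G (AlgebraicClosure (ZMod p)), Scusp (ZMod p) s ≠ Sw (ZMod p) s := by
  rcases hp with rfl | rfl
  · exact two_case
  · exact three_case

end Pool.Agent.Results.MP_21a573_al.SmallFields
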